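import Pool.Agent.H340R2.LW
import Pool.Agent.T6.H39.AG.Frac

/-!
# Powers of `π` with exponents in `ℚ̄(π)` and in other fields

Let `Prods` be the set of all numbers `e ^ γ α_1 ^ β_1 ⋯ α_k ^ β_k` with algebraic `γ`, `β_i` and
`α_i ≠ 0` (all values of the powers are allowed), e.g. all nonzero algebraic numbers. The question is
whether `π ^ x` is transcendental for `x = π`. We show that for all fields of exponents `x` which are
generated by finitely many complex numbers this can fail, and even `π ^ x` can be in `Prods`, for few `x`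
only. The same holds for `a ^ x` for every complex `a ≠ 0, 1` instead of `π ^ x`, with constants which
do not depend on `a`.

(1) The polynomials `P` with algebraic coefficients, `deg P ≤ D`, such that `π ^ P(π)` is in `Prods` form
a space of dimension at most `2 √D + 1`. The same for `π ^ (u P(π))` for every complex `u ≠ 0`, for instance
for the Laurent polynomials with exponents between `-k` and `D - k`.

(2) For all algebraic numbers `b` with at most three exceptions `π ^ (1 / (π - b))` is transcendental and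
not in `Prods`.

(3) For arbitrary complex numbers `z_1, …, z_r`, for instance `π, e, log π`, let `t` be the transcendence
degree of the field generated by them, and `R_n` the space of the numbers `P(z_1, …, z_r)`, `deg P ≤ n`
(its dimension has the order `n ^ t`). The `x ∈ R_n` with `π ^ x ∈ Prods` form a space of dimension at most
`C n ^ (t / 2)`; the quotients `x = p / q`, `p, q ∈ R_n`, with `π ^ x ∈ Prods` span a space of dimension at
most `C n ^ t`, although all the quotients span a space of infinite dimension if `t, n ≥ 1`.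

The proof: the space `V` of the linear forms in `1` and logarithms of algebraic numbers satisfies
`dim A * dim (F ∩ V) ≤ dim (A F) + dim A (dim A - 1)` for all finite dimensional spaces `A`, `F` of complex
numbers over the field of algebraic numbers (from the hyperplane case of the linear subgroup theorem in
the starting files); here `F` is a space of numbers `x log π`.
-/

set_option autoImplicit false

namespace Pool.Agent.Results.MP_7fde5c_nt.ExponentsInFields

open Module Finset Pool.Agent.HP778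
open Pool.Agent.H301R2.SSE (QB mem_QB Lt)
open Pool.Agent.T6.H39.TR
open Pool.Agent.T6.H39.AG (gen mulBy finrank_mulBy low)

/-- The linear combinations, with algebraic coefficients, of `1` and of logarithms of algebraic
numbers. -/
noncomputable def LogForms : Submodule (algebraicClosure ℚ ℂ) ℂ :=
  Submodule.span (algebraicClosure ℚ ℂ) ({1} ∪ {z : ℂ | IsAlgebraic ℚ (Complex.exp z)})

/-- The numbers `e ^ z` with `z` in `LogForms`, i.e. the numbers `e ^ γ α_1 ^ β_1 ⋯ α_k ^ β_k` with
algebraic `γ`, `α_i ≠ 0`, `β_i`. -/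
def Prods : Set ℂ := {x | ∃ z ∈ LogForms, Complex.exp z = x}

/-- The space of the numbers `x` with `x log a ∈ LogForms` (principal value), i.e. (for `a ≠ 0`) with
`a ^ x ∈ Prods`, see part (0) of the theorem -/
noncomputable def Exps (a : ℂ) : Submodule (algebraicClosure ℚ ℂ) ℂ :=
  LogForms.comap (LinearMap.mulLeft (algebraicClosure ℚ ℂ) (Complex.log a))

/-- The numbers `u P(θ)`, `P` a polynomial of degree at most `D` with algebraic coefficients. -/
noncomputable def pols (θ u : ℂ) (D : ℕ) : Submodule (algebraicClosure ℚ ℂ) ℂ :=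
  Submodule.span (algebraicClosure ℚ ℂ) (Set.range fun j : Fin (D + 1) => u * θ ^ (j : ℕ))

/-- `R_n`: the space spanned by the products of `n` of the numbers `1, z_1, …, z_r`, that is the space
of the numbers `P(z_1, …, z_r)`, `P` a polynomial of degree at most `n` with algebraic coefficients -/
noncomputable def upTo {r : ℕ} (z : Fin r → ℂ) (n : ℕ) : Submodule (algebraicClosure ℚ ℂ) ℂ :=
  Submodule.span (algebraicClosure ℚ ℂ) (insert 1 (Set.range z)) ^ n

/-- The space spanned by the quotients `x = p / q` of elements of `R_n` with `a ^ x ∈ Prods`. -/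
noncomputable def quots {r : ℕ} (z : Fin r → ℂ) (a : ℂ) (n : ℕ) :
    Submodule (algebraicClosure ℚ ℂ) ℂ :=
  Submodule.span (algebraicClosure ℚ ℂ)
    {x | a ^ x ∈ Prods ∧ ∃ p ∈ upTo z n, ∃ q ∈ upTo z n, q ≠ 0 ∧ x = p / q}

theorem mem_exps {a : ℂ} (ha : a ≠ 0) (x : ℂ) : x ∈ Exps a ↔ a ^ x ∈ Prods := by
  rw [Complex.cpow_def_of_ne_zero ha]
  constructor
  · intro h
    exact ⟨Complex.log a * x, h, rfl⟩
  · rintro ⟨z, hz, hze⟩
    exact mem_of_exp hz hze.symm

theorem alg_mem_prods (x : ℂ) (hx0 : x ≠ 0) (hx : IsAlgebraic ℚ x) : x ∈ Prods := by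
  refine ⟨Complex.log x, Submodule.subset_span (Or.inr ?_), Complex.exp_log hx0⟩
  change IsAlgebraic ℚ (Complex.exp (Complex.log x))
  rwa [Complex.exp_log hx0]

theorem log_ne {a : ℂ} (ha0 : a ≠ 0) (ha1 : a ≠ 1) : Complex.log a ≠ 0 := by
  intro h
  have h1 := Complex.exp_log ha0
  rw [h, Complex.exp_zero] at h1
  exact ha1 h1.symm

theorem indep_pow {θ : ℂ} (hθ : Transcendental ℚ θ) (D : ℕ) :
    LinearIndependent QB (fun j : Fin (D + 1) => θ ^ (j : ℕ)) := by
  have h := ((transcendental_iff_injective.mp (tr_QB hθ)))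
  have h2 : LinearIndependent QB (fun n : ℕ => θ ^ n) := by
    have h3 := (Polynomial.basisMonomials QB).linearIndependent.map'
      (Polynomial.aeval θ : Polynomial QB →ₐ[QB] ℂ).toLinearMap
      (LinearMap.ker_eq_bot.mpr h)
    refine (linearIndependent_equiv' (Equiv.refl ℕ) ?_).mp h3
    funext n
    simp [Polynomial.coe_basisMonomials, Polynomial.aeval_monomial]
  exact h2.comp _ Fin.val_injective

instance (θ u : ℂ) (D : ℕ) : FiniteDimensional QB (pols θ u D) :=
  FiniteDimensional.span_of_finite _ (Set.finite_range _)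

theorem finrank_pols_le (θ u : ℂ) (D : ℕ) : finrank QB (pols θ u D) ≤ D + 1 := by
  refine (finrank_range_le_card _).trans (le_of_eq ?_)
  rw [Fintype.card_fin]

theorem mul_pols (θ u : ℂ) (q D : ℕ) :
    Submodule.span QB (Set.range fun i : Fin (q + 1) => θ ^ (i : ℕ)) * pols θ u D ≤
      pols θ u (q + D) := by
  unfold pols
  rw [Submodule.span_mul_span, Submodule.span_le]
  rintro _ ⟨_, ⟨i, rfl⟩, _, ⟨l, rfl⟩, rfl⟩
  refine Submodule.subset_span ⟨⟨(i : ℕ) + l, by have := i.2; have := l.2; omega⟩, ?_⟩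
  change u * θ ^ ((i : ℕ) + l) = θ ^ (i : ℕ) * (u * θ ^ (l : ℕ))
  rw [pow_add]
  ring

theorem pols_scale (θ u y : ℂ) (D : ℕ) {x : ℂ} (hx : x ∈ pols θ u D) :
    y * x ∈ pols θ (y * u) D := by
  have h : pols θ u D ≤ (pols θ (y * u) D).comap (LinearMap.mulLeft QB y) := by
    unfold pols
    rw [Submodule.span_le]
    rintro _ ⟨j, rfl⟩
    refine Submodule.subset_span ⟨j, ?_⟩
    change y * u * θ ^ (j : ℕ) = y * (u * θ ^ (j : ℕ))
    ring
  exact h hx

theorem bound1 {θ : ℂ} (hθ : Transcendental ℚ θ) (w : ℂ) (D : ℕ) :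
    finrank QB (pols θ w D ⊓ Lt : Submodule QB ℂ) ≤ 2 * Nat.sqrt D + 1 := by
  have h2 : D < (Nat.sqrt D + 1) * (Nat.sqrt D + 1) := Nat.lt_succ_sqrt _
  generalize Nat.sqrt D = q at h2 ⊢
  have h1 := finrank_span_eq_card (indep_pow hθ q)
  rw [Fintype.card_fin] at h1
  have hfd : FiniteDimensional QB (Submodule.span QB
      (Set.range fun i : Fin (q + 1) => θ ^ (i : ℕ))) :=
    FiniteDimensional.span_of_finite _ (Set.finite_range _)
  have h3 := grow hyper_Lt (Submodule.span QB (Set.range fun i : Fin (q + 1) => θ ^ (i : ℕ)))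
    (pols θ w D)
  rw [h1, Nat.add_sub_cancel] at h3
  have h4 := (Submodule.finrank_mono (mul_pols θ w q D)).trans (finrank_pols_le θ w (q + D))
  generalize finrank QB (pols θ w D ⊓ Lt : Submodule QB ℂ) = s at h3 ⊢
  by_contra hcon
  push Not at hcon
  have h5 : (q + 1) * (2 * q + 1 + 1) ≤ (q + 1) * s := Nat.mul_le_mul_left _ hcon
  nlinarith

theorem pol_bound {a θ : ℂ} (ha0 : a ≠ 0) (ha1 : a ≠ 1) (hθ : Transcendental ℚ θ) (u : ℂ)
    (D : ℕ) : finrank QB (pols θ u D ⊓ Exps a : Submodule QB ℂ) ≤ 2 * Nat.sqrt D + 1 := by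
  rw [← finrank_mulBy (log_ne ha0 ha1)]
  refine (Submodule.finrank_mono ?_).trans (bound1 hθ (Complex.log a * u) D)
  rintro _ ⟨x, hx, rfl⟩
  exact ⟨pols_scale θ u (Complex.log a) D hx.1, hx.2⟩

open Classical in
theorem count_pow {a θ u : ℂ} (ha0 : a ≠ 0) (ha1 : a ≠ 1) (hθ : Transcendental ℚ θ) (hu : u ≠ 0)
    (D : ℕ) : ((Finset.range (D + 1)).filter fun n => a ^ (u * θ ^ n) ∈ Prods).card ≤
      2 * Nat.sqrt D + 1 := by
  have h0 := indep_pow hθ D
  have h1 : LinearIndependent QB (fun n : ((Finset.range (D + 1)).filter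
      fun n => a ^ (u * θ ^ n) ∈ Prods) => θ ^ (n : ℕ)) :=
    h0.comp (fun n : ((Finset.range (D + 1)).filter fun n => a ^ (u * θ ^ n) ∈ Prods) =>
      (⟨(n : ℕ), Finset.mem_range.mp (Finset.mem_filter.mp n.2).1⟩ : Fin (D + 1))) (by
      intro a b hab
      exact Subtype.ext (congrArg Fin.val hab))
  have h2 : LinearIndependent QB (fun n : ((Finset.range (D + 1)).filter
      fun n => a ^ (u * θ ^ n) ∈ Prods) => u * θ ^ (n : ℕ)) := by
    refine h1.map' (LinearMap.mulLeft QB u) ?_
    rw [LinearMap.ker_eq_bot]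
    intro a b hab
    exact mul_left_cancel₀ hu hab
  have h3 := finrank_span_eq_card h2
  rw [Fintype.card_coe] at h3
  rw [← h3]
  refine le_trans ?_ (pol_bound ha0 ha1 hθ u D)
  apply Submodule.finrank_mono
  rw [Submodule.span_le]
  rintro _ ⟨n, rfl⟩
  obtain ⟨hn, hn'⟩ := Finset.mem_filter.mp n.2
  exact ⟨Submodule.subset_span ⟨⟨n, Finset.mem_range.mp hn⟩, rfl⟩, (mem_exps ha0 _).mpr hn'⟩

theorem poles {a θ : ℂ} (ha0 : a ≠ 0) (ha1 : a ≠ 1) (hθ : Transcendental ℚ θ) (B : Finset ℂ)
    (hB : ∀ b ∈ B, IsAlgebraic ℚ b ∧ a ^ (1 / (θ - b)) ∈ Prods) : B.card ≤ 3 := by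
  obtain ⟨y, hy⟩ : ∃ y, y = Complex.log a := ⟨_, rfl⟩
  have hy0 : y ≠ 0 := hy ▸ log_ne ha0 ha1
  have hne : ∀ b : B, θ - (b : ℂ) ≠ 0 := by
    intro b h
    apply hθ
    rw [sub_eq_zero.mp h]
    exact (hB b b.2).1
  have h1 : LinearIndependent QB (fun b : B => (θ - (b : ℂ))⁻¹) :=
    (tr_QB hθ).linearIndependent_sub_inv.comp
      (fun b : B => (⟨(b : ℂ), mem_QB.mpr (hB b b.2).1⟩ : QB))
      (fun b c hbc => Subtype.ext (congrArg (fun x : QB => (x : ℂ)) hbc))
  have h2 : LinearIndependent QB (fun b : B => y * (θ - (b : ℂ))⁻¹) := by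
    refine h1.map' (LinearMap.mulLeft QB y) ?_
    rw [LinearMap.ker_eq_bot]
    intro a b hab
    exact mul_left_cancel₀ hy0 hab
  have h3 := finrank_span_eq_card h2
  rw [Fintype.card_coe] at h3
  obtain ⟨F, hF⟩ : ∃ F, F = Submodule.span QB (Set.range fun b : B => y * (θ - (b : ℂ))⁻¹) :=
    ⟨_, rfl⟩
  have hFd : FiniteDimensional QB F := hF ▸ FiniteDimensional.span_of_finite _ (Set.finite_range _)
  have hFL : F ⊓ Lt = F := by
    rw [inf_eq_left, hF, Submodule.span_le]
    rintro _ ⟨b, rfl⟩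
    have h4 := (mem_exps ha0 _).mpr (hB b b.2).2
    rw [one_div] at h4
    rw [hy]
    exact h4
  have h5 := finrank_span_eq_card (indep_pow hθ 1)
  rw [Fintype.card_fin] at h5
  have hfd : FiniteDimensional QB (Submodule.span QB
      (Set.range fun i : Fin (1 + 1) => θ ^ (i : ℕ))) :=
    FiniteDimensional.span_of_finite _ (Set.finite_range _)
  have h6 : Submodule.span QB (Set.range fun i : Fin (1 + 1) => θ ^ (i : ℕ)) * F ≤
      F ⊔ Submodule.span QB {y} := by
    have hF2 : ∀ b : B, y * (θ - (b : ℂ))⁻¹ ∈ F := fun b => hF ▸ Submodule.subset_span ⟨b, rfl⟩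
    conv_lhs => rw [hF]
    rw [Submodule.span_mul_span, Submodule.span_le]
    rintro _ ⟨_, ⟨i, rfl⟩, _, ⟨b, rfl⟩, rfl⟩
    change θ ^ (i : ℕ) * (y * (θ - (b : ℂ))⁻¹) ∈ F ⊔ Submodule.span QB {y}
    obtain hi | hi : (i : ℕ) = 0 ∨ (i : ℕ) = 1 := by have := i.2; omega
    · rw [hi, pow_zero, one_mul]
      exact Submodule.mem_sup_left (hF2 b)
    · have h7 : θ ^ (i : ℕ) * (y * (θ - (b : ℂ))⁻¹) =
          (⟨(b : ℂ), mem_QB.mpr (hB b b.2).1⟩ : QB) • (y * (θ - (b : ℂ))⁻¹) + y := by
        rw [Algebra.smul_def, hi, pow_one]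
        change θ * (y * (θ - (b : ℂ))⁻¹) = (b : ℂ) * (y * (θ - (b : ℂ))⁻¹) + y
        have := hne b
        field_simp
        ring
      rw [h7]
      exact Submodule.add_mem_sup (F.smul_mem _ (hF2 b)) (Submodule.mem_span_singleton_self y)
  have h7 := grow hyper_Lt (Submodule.span QB (Set.range fun i : Fin (1 + 1) => θ ^ (i : ℕ))) F
  have h8 := Submodule.finrank_mono h6
  have h9 := Submodule.finrank_add_le_finrank_add_finrank F (Submodule.span QB {y})
  have h10 : finrank QB (Submodule.span QB {y}) = 1 := finrank_span_singleton hy0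
  rw [hFL, h5] at h7
  rw [hF] at h7 h8 h9
  rw [h3] at h7 h9
  rw [h10] at h9
  omega

theorem quot_bound {r : ℕ} (z : Fin r → ℂ) : ∃ t C : ℕ,
    Algebra.trdeg QB (Algebra.adjoin QB (Set.range z)) = t ∧
    ∀ a : ℂ, a ≠ 0 → a ≠ 1 → ∀ n : ℕ,
      finrank QB (upTo z n ⊓ Exps a : Submodule QB ℂ) ^ 2 ≤ C * (n + 1) ^ t ∧
      FiniteDimensional QB (quots z a n) ∧
      finrank QB (quots z a n) ≤ C * (n + 1) ^ t := by
  obtain ⟨t, C, h1, -, h3⟩ := Pool.Agent.T6.H39.AG.main hyper_Lt z
  obtain ⟨t', h1', h2'⟩ := Pool.Agent.T6.H39.AG.frac hyper_Lt z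
  have ht : t' = t := by
    have := h1'.symm.trans h1
    exact_mod_cast this
  obtain ⟨C', hC', h4⟩ := h2' 1 one_pos
  rw [ht] at h4
  refine ⟨t, 2 * C + ⌈2 + C'⌉₊, h1, fun a ha0 ha1 n => ?_⟩
  have hy0 := log_ne ha0 ha1
  have hYd : FiniteDimensional QB (Submodule.span QB {Complex.log a}) := inferInstance
  have hY1 : finrank QB (Submodule.span QB {Complex.log a}) = 1 := finrank_span_singleton hy0
  have hn1 : 1 ≤ (n + 1) ^ t := Nat.one_le_pow _ _ (Nat.succ_pos _)
  refine ⟨?_, ?_⟩
  · have h5 := h3 _ hYd n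
    rw [hY1] at h5
    have hfd : FiniteDimensional QB (gen QB z ^ n : Submodule QB ℂ) :=
      Pool.Agent.T6.H39.AG.pow_fd z n
    have hfd2 := fd_mul (Submodule.span QB {Complex.log a}) (gen QB z ^ n)
    have h6 : finrank QB (upTo z n ⊓ Exps a : Submodule QB ℂ) ≤
        finrank QB (Submodule.span QB {Complex.log a} * gen QB z ^ n ⊓ Lt : Submodule QB ℂ) := by
      rw [← finrank_mulBy hy0]
      apply Submodule.finrank_mono
      rintro _ ⟨x, hx, rfl⟩
      exact ⟨Submodule.mul_mem_mul (Submodule.mem_span_singleton_self _) hx.1, hx.2⟩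
    calc finrank QB (upTo z n ⊓ Exps a : Submodule QB ℂ) ^ 2
        ≤ _ := Nat.pow_le_pow_left h6 2
      _ ≤ _ := h5
      _ ≤ (2 * C + ⌈2 + C'⌉₊) * (n + 1) ^ t := by nlinarith [Nat.zero_le C]
  · obtain ⟨h5, h6⟩ := h4 _ hYd n
    have h7 : mulBy (Complex.log a) (quots z a n) ≤
        low Lt z (Submodule.span QB {Complex.log a}) n := by
      unfold mulBy
      rw [Submodule.map_le_iff_le_comap]
      unfold quots
      rw [Submodule.span_le]
      rintro x ⟨hx, p, hp, q, hq, hq0, rfl⟩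
      refine Submodule.subset_span ⟨(mem_exps ha0 _).mpr hx, q, hq, hq0, ?_⟩
      have h8 : q * (Complex.log a * (p / q)) = Complex.log a * p := by field_simp
      change q * (Complex.log a * (p / q)) ∈ _
      rw [h8]
      exact Submodule.mul_mem_mul (Submodule.mem_span_singleton_self _) hp
    have h8 : FiniteDimensional QB (mulBy (Complex.log a) (quots z a n)) :=
      Submodule.finiteDimensional_of_le h7
    have hinj : Function.Injective (LinearMap.mulLeft QB (Complex.log a)) :=
      fun x y hxy => mul_left_cancel₀ hy0 hxy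
    have h8' : FiniteDimensional QB
        (Submodule.map (LinearMap.mulLeft QB (Complex.log a)) (quots z a n)) := h8
    refine ⟨(Submodule.equivMapOfInjective (LinearMap.mulLeft QB (Complex.log a)) hinj
      (quots z a n)).symm.finiteDimensional, ?_⟩
    · rw [← finrank_mulBy hy0]
      have h9 := Submodule.finrank_mono h7
      have h10 : (finrank QB (mulBy (Complex.log a) (quots z a n)) : ℝ) ≤
          (2 + C') * ((n : ℝ) + 1) ^ t := by
        have h11 : (finrank QB (mulBy (Complex.log a) (quots z a n)) : ℝ) ≤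
            finrank QB (low Lt z (Submodule.span QB {Complex.log a}) n) := by exact_mod_cast h9
        rw [hY1] at h6
        have h12 : (1 : ℝ) ≤ ((n : ℝ) + 1) ^ t := by exact_mod_cast hn1
        push_cast at h6
        linarith
      have h13 : (finrank QB (mulBy (Complex.log a) (quots z a n)) : ℝ) ≤
          ((2 * C + ⌈2 + C'⌉₊ : ℕ) : ℝ) * (((n + 1) ^ t : ℕ) : ℝ) := by
        refine h10.trans ?_
        push_cast
        apply mul_le_mul_of_nonneg_right _ (by positivity)
        have := Nat.le_ceil (2 + C')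
        have : (0 : ℝ) ≤ 2 * C := by positivity
        linarith
      exact_mod_cast h13

open Classical in
/-- **Theorem.** `LogForms` is the space of the linear combinations, with algebraic coefficients, of `1`
and logarithms of algebraic numbers, `Prods = exp LogForms`; dimensions are over the field of algebraic
numbers, `√` is the integer part of the square root and `a ^ x` the principal value.

(0) `π` is transcendental; nonzero algebraic numbers are in `Prods`; for `a ≠ 0` the `x` with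
`a ^ x ∈ Prods` form the space `Exps a`.

(1) For complex `a ≠ 0, 1`, `θ` transcendental (e.g. `a = θ = π`) and `u ≠ 0`: the numbers `x = u P(θ)`,
`P` a polynomial with algebraic coefficients and `deg P ≤ D`, with `a ^ x ∈ Prods` form a space of
dimension at most `2 √D + 1`, and at most `2 √D + 1` of the numbers `a ^ (u θ ^ j)`, `0 ≤ j ≤ D`, are in
`Prods`.

(2) For `a ≠ 0, 1` and `θ` transcendental there are at most three algebraic numbers `b` such that
`a ^ (1 / (θ - b))` is in `Prods`. In particular there are at most three real algebraic numbers `b`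
such that the real number `π ^ (1 / (π - b))` is algebraic.

(3) For all complex numbers `z_1, …, z_r` there is `C` such that, with the transcendence degree `t` of the
algebra which they generate, for all `n` and all `a ≠ 0, 1`: the space of the `x ∈ R_n` with
`a ^ x ∈ Prods` has a dimension `s` with `s ^ 2 ≤ C (n + 1) ^ t`; the quotients `x = p / q` with
`p, q ∈ R_n` and `a ^ x ∈ Prods` span a space of dimension at most `C (n + 1) ^ t`. -/
theorem result :
    (Transcendental ℚ ((Real.pi : ℝ) : ℂ) ∧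
      (∀ x : ℂ, x ≠ 0 → IsAlgebraic ℚ x → x ∈ Prods) ∧
      (∀ a : ℂ, a ≠ 0 → ∀ x : ℂ, x ∈ Exps a ↔ a ^ x ∈ Prods)) ∧
    (∀ a θ u : ℂ, a ≠ 0 → a ≠ 1 → Transcendental ℚ θ → u ≠ 0 → ∀ D : ℕ,
      finrank (algebraicClosure ℚ ℂ)
        (pols θ u D ⊓ Exps a : Submodule (algebraicClosure ℚ ℂ) ℂ) ≤ 2 * Nat.sqrt D + 1 ∧
      ((Finset.range (D + 1)).filter fun j => a ^ (u * θ ^ j) ∈ Prods).card ≤
        2 * Nat.sqrt D + 1) ∧
    (∀ a θ : ℂ, a ≠ 0 → a ≠ 1 → Transcendental ℚ θ → ∀ B : Finset ℂ,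
      (∀ b ∈ B, IsAlgebraic ℚ b ∧ a ^ (1 / (θ - b)) ∈ Prods) → B.card ≤ 3) ∧
    (∀ B : Finset ℝ, (∀ b ∈ B, IsAlgebraic ℚ b ∧ IsAlgebraic ℚ (Real.pi ^ (1 / (Real.pi - b)))) →
      B.card ≤ 3) ∧
    (∀ (r : ℕ) (z : Fin r → ℂ), ∃ t C : ℕ,
      Algebra.trdeg (algebraicClosure ℚ ℂ)
        (Algebra.adjoin (algebraicClosure ℚ ℂ) (Set.range z)) = t ∧
      ∀ a : ℂ, a ≠ 0 → a ≠ 1 → ∀ n : ℕ,
        finrank (algebraicClosure ℚ ℂ)
          (upTo z n ⊓ Exps a : Submodule (algebraicClosure ℚ ℂ) ℂ) ^ 2 ≤ C * (n + 1) ^ t ∧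
        FiniteDimensional (algebraicClosure ℚ ℂ) (quots z a n) ∧
        finrank (algebraicClosure ℚ ℂ) (quots z a n) ≤ C * (n + 1) ^ t) := by
  refine ⟨⟨Pool.Agent.H340R2.LW.transcendental_pi_complex, alg_mem_prods,
    fun a ha x => mem_exps ha x⟩, fun a θ u ha0 ha1 hθ hu D =>
      ⟨pol_bound ha0 ha1 hθ u D, count_pow ha0 ha1 hθ hu D⟩, fun a θ ha0 ha1 hθ B hB =>
        poles ha0 ha1 hθ B hB, fun B hB => ?_, fun r z => quot_bound z⟩
  have hpi0 : ((Real.pi : ℝ) : ℂ) ≠ 0 := by exact_mod_cast Real.pi_ne_zero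
  have hpi1 : ((Real.pi : ℝ) : ℂ) ≠ 1 := by
    have := Real.pi_gt_three
    intro h
    have h' : Real.pi = 1 := by exact_mod_cast h
    linarith
  have h1 := poles hpi0 hpi1 Pool.Agent.H340R2.LW.transcendental_pi_complex
    (B.map ⟨fun x : ℝ => (x : ℂ), Complex.ofReal_injective⟩) (by
      intro b hb
      obtain ⟨c, hc, rfl⟩ := Finset.mem_map.mp hb
      obtain ⟨h2, h3⟩ := hB c hc
      change IsAlgebraic ℚ (c : ℂ) ∧
        ((Real.pi : ℝ) : ℂ) ^ (1 / (((Real.pi : ℝ) : ℂ) - (c : ℂ))) ∈ Prods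
      have h4 : ((Real.pi : ℝ) : ℂ) ^ (1 / (((Real.pi : ℝ) : ℂ) - (c : ℂ))) =
          ((Real.pi ^ (1 / (Real.pi - c)) : ℝ) : ℂ) := by
        rw [Complex.ofReal_cpow Real.pi_pos.le]
        push_cast
        rfl
      rw [h4]
      refine ⟨h2.algebraMap (A := ℂ), alg_mem_prods _ ?_ (h3.algebraMap (A := ℂ))⟩
      have := Real.rpow_pos_of_pos Real.pi_pos (1 / (Real.pi - c))
      exact_mod_cast this.ne')
  rwa [Finset.card_map] at h1

end Pool.Agent.Results.MP_7fde5c_nt.ExponentsInFields
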